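import Mathlib

/-!
Chebyshev bounds for the number of primes over the natural numbers, and a lower bound for the
largest value of `π (2 k) - π k`, `k ≤ X`.
-/

set_option autoImplicit false

open Finset Filter

namespace Pool.Agent.E139P

theorem pi_up : ∃ C : ℝ, 0 < C ∧ ∃ N0 : ℕ, ∀ N : ℕ, N0 ≤ N →
    (Nat.primeCounting N : ℝ) ≤ C * ((N : ℝ) / Real.log N) := by
  have h4 : 0 < Real.log 4 := Real.log_pos (by norm_num)
  refine ⟨Real.log 4 + 1, by linarith, ?_⟩
  have h := tendsto_natCast_atTop_atTop (R := ℝ) |>.eventually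
    (Chebyshev.eventually_primeCounting_le (ε := 1) one_pos)
  obtain ⟨N0, hN⟩ := eventually_atTop.1 h
  refine ⟨N0, fun N hN0 => ?_⟩
  have h1 := hN N hN0
  rw [Nat.floor_natCast] at h1
  calc (Nat.primeCounting N : ℝ) ≤ (Real.log 4 + 1) * N / Real.log N := h1
    _ = _ := by ring

/-- `log (n + 1)` is small -/
lemma log_small (ε : ℝ) (hε : 0 < ε) : ∀ᶠ n : ℕ in atTop, Real.log ((n : ℝ) + 1) ≤ ε * n := by
  have h := Real.isLittleO_log_id_atTop.bound (c := ε / 2) (by positivity)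
  have h2 := (tendsto_natCast_atTop_atTop (R := ℝ)).comp (tendsto_add_atTop_nat 1) |>.eventually h
  filter_upwards [h2, eventually_ge_atTop 1] with n hn hn1
  simp only [Function.comp_apply, id, Nat.cast_add, Nat.cast_one] at hn
  have hn0 : (1 : ℝ) ≤ n := by exact_mod_cast hn1
  rw [Real.norm_of_nonneg (Real.log_nonneg (by linarith)), Real.norm_of_nonneg (by linarith)] at hn
  nlinarith

theorem pi_low : ∃ c : ℝ, 0 < c ∧ ∃ N0 : ℕ, ∀ N : ℕ, N0 ≤ N →
    c * ((N : ℝ) / Real.log N) ≤ (Nat.primeCounting N : ℝ) := by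
  obtain ⟨N1, h1⟩ := eventually_atTop.1 (log_small (1 / 10) (by norm_num))
  refine ⟨1 / 2, by norm_num, max N1 2, fun N hN => ?_⟩
  have h2 := h1 N (le_trans (le_max_left _ _) hN)
  have hN2 : 2 ≤ N := le_trans (le_max_right _ _) hN
  have hN2' : (2 : ℝ) ≤ N := by exact_mod_cast hN2
  have hl : 0 < Real.log N := Real.log_pos (by linarith)
  have h3 := Chebyshev.pi_ge N
  have h5 := Real.log_two_gt_d9
  have h6 : 1 / 2 * ((N : ℝ) / Real.log N) ≤ (N * Real.log 2 - Real.log (N + 1)) / Real.log N := by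
    rw [← mul_div_assoc, div_le_div_iff_of_pos_right hl]
    nlinarith
  exact h6.trans h3

lemma pi_succ_le (n : ℕ) : Nat.primeCounting (n + 1) ≤ Nat.primeCounting n + 1 := by
  unfold Nat.primeCounting Nat.primeCounting'
  rw [Nat.count_succ]
  split_ifs <;> omega

theorem max_f : ∃ c : ℝ, 0 < c ∧ ∃ X0 : ℕ, ∀ X : ℕ, X0 ≤ X → ∃ x0 : ℕ, x0 ≤ X ∧
    c * ((X : ℝ) / Real.log X) ≤
      ((Nat.primeCounting (2 * x0) - Nat.primeCounting x0 : ℕ) : ℝ) := by
  refine ⟨1 / 10, by norm_num, ?_⟩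
  -- upper bound at `X / 2`
  have hA : ∀ᶠ X : ℕ in atTop, (Nat.primeCounting (X / 2) : ℝ) ≤
      (Real.log 4 + 1 / 20) * ((X : ℝ) / 2) / Real.log ((X : ℝ) / 2) := by
    have ht : Tendsto (fun X : ℕ => (X : ℝ) / 2) atTop atTop :=
      (tendsto_natCast_atTop_atTop (R := ℝ)).atTop_div_const (by norm_num)
    have h := ht.eventually
      (Chebyshev.eventually_primeCounting_le (ε := 1 / 20) (by norm_num))
    filter_upwards [h] with X hX
    have e : ⌊(X : ℝ) / 2⌋₊ = X / 2 := by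
      have := Nat.floor_div_natCast (X : ℝ) 2
      simpa using this
    rw [e] at hX
    exact hX
  have hlogT : Tendsto (fun X : ℕ => Real.log (X : ℝ)) atTop atTop :=
    Real.tendsto_log_atTop.comp (tendsto_natCast_atTop_atTop (R := ℝ))
  have hB : ∀ᶠ X : ℕ in atTop, 16 ≤ Real.log (X : ℝ) := hlogT.eventually_ge_atTop 16
  have hC : ∀ᶠ X : ℕ in atTop, Real.log ((X : ℝ) + 1) ≤ 1 / 100 * X :=
    log_small _ (by norm_num)
  have hD : ∀ᶠ X : ℕ in atTop, Real.log (((2 * X : ℕ) : ℝ) + 1) ≤ 1 / 100 * ((2 * X : ℕ) : ℝ) :=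
    (tendsto_id.const_mul_atTop' (r := 2) (by norm_num)).eventually
      (log_small (1 / 100) (by norm_num))
  obtain ⟨X0, hX0⟩ := eventually_atTop.1 (hA.and (hB.and (hC.and (hD.and (eventually_ge_atTop 2)))))
  refine ⟨X0, fun X hX => ?_⟩
  obtain ⟨h1, h2, h3, h4, h5⟩ := hX0 X hX
  have hX2 : (2 : ℝ) ≤ X := by exact_mod_cast h5
  have l2 := Real.log_two_gt_d9
  have l2' := Real.log_two_lt_d9
  have hl4 : Real.log 4 = 2 * Real.log 2 := by
    rw [show (4 : ℝ) = 2 ^ 2 by norm_num, Real.log_pow]; norm_num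
  set L : ℝ := Real.log X with hL
  have hLp : 0 < L := by linarith
  have hhalf : Real.log ((X : ℝ) / 2) = L - Real.log 2 := Real.log_div (by positivity) (by norm_num)
  have hdbl : Real.log ((2 * X : ℕ) : ℝ) = L + Real.log 2 := by
    push_cast
    rw [Real.log_mul (by norm_num) (by positivity)]
    ring
  set Q : ℝ := (X : ℝ) / L with hQ
  have hQL : Q * L = X := by rw [hQ]; field_simp
  have hQ0 : 0 < Q := by positivity
  -- `π (X / 2) ≤ 0.76 Q`
  have hup : (Nat.primeCounting (X / 2) : ℝ) ≤ 77 / 100 * Q := by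
    refine h1.trans ?_
    rw [hhalf, div_le_iff₀ (by linarith), ← hQL, hl4]
    have : Q * (L - Real.log 2) ≥ Q * (L * (95 / 100)) := by
      apply mul_le_mul_of_nonneg_left _ hQ0.le
      nlinarith
    nlinarith [mul_pos hQ0 hLp]
  -- `π (2 X) ≥ 1.2 Q`
  have hlow : 12 / 10 * Q ≤ (Nat.primeCounting (2 * X) : ℝ) := by
    have h6 := Chebyshev.pi_ge (2 * X)
    refine le_trans ?_ h6
    rw [hdbl, le_div_iff₀ (by linarith)]
    have h7 : ((2 * X : ℕ) : ℝ) = 2 * X := by push_cast; ring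
    rw [h7] at h4 ⊢
    have h8 : 12 / 10 * Q * (L + Real.log 2) ≤ 12 / 10 * (Q * L) * (105 / 100) := by
      have : L + Real.log 2 ≤ L * (105 / 100) := by nlinarith
      nlinarith
    rw [hQL] at h8
    nlinarith
  -- `1 ≤ 0.01 Q`
  have hone : 1 ≤ 18 / 100 * Q := by
    have h9 : L ≤ 1 / 100 * X :=
      (Real.log_le_log (by positivity) (by linarith)).trans h3
    have : L * 100 ≤ Q * L := by rw [hQL]; linarith
    have h10 : 100 ≤ Q := by
      by_contra h
      push Not at h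
      nlinarith
    linarith
  -- telescoping
  have t1 : Nat.primeCounting X ≤ Nat.primeCounting (2 * (X / 2)) + 1 :=
    (Nat.monotone_primeCounting (show X ≤ 2 * (X / 2) + 1 by omega)).trans (pi_succ_le _)
  have t2 : Nat.primeCounting X ≤ Nat.primeCounting (2 * X) :=
    Nat.monotone_primeCounting (by omega)
  have t3 : Nat.primeCounting (X / 2) ≤ Nat.primeCounting (2 * (X / 2)) :=
    Nat.monotone_primeCounting (by omega)
  have t4 : ((Nat.primeCounting (2 * X) : ℕ) : ℝ) ≤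
      ((Nat.primeCounting (2 * X) - Nat.primeCounting X : ℕ) : ℝ) +
      ((Nat.primeCounting (2 * (X / 2)) - Nat.primeCounting (X / 2) : ℕ) : ℝ) +
        (Nat.primeCounting (X / 2) : ℝ) + 1 := by
    have : Nat.primeCounting (2 * X) ≤ (Nat.primeCounting (2 * X) - Nat.primeCounting X) +
      (Nat.primeCounting (2 * (X / 2)) - Nat.primeCounting (X / 2)) +
        Nat.primeCounting (X / 2) + 1 := by omega
    exact_mod_cast this
  by_cases hc : 1 / 10 * Q ≤ ((Nat.primeCounting (2 * X) - Nat.primeCounting X : ℕ) : ℝ)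
  · exact ⟨X, le_refl _, hc⟩
  · refine ⟨X / 2, Nat.div_le_self _ _, ?_⟩
    push Not at hc
    have h12 : 1 / 10 * Q ≤ 12 / 10 * Q - 1 / 10 * Q - 77 / 100 * Q - 18 / 100 * Q := by linarith
    linarith

end Pool.Agent.E139P
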