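import Mathlib
import Pool.Agent.E139P.Cheb

/-!
A positive proportion of the blocks of length `T ≥ log F` below `F` contain a prime, from the second
moment of the number of primes in the blocks.
-/

set_option autoImplicit false

open Finset Filter

namespace Pool.Agent.E139P

theorem blocks (C : ℝ) (hC : 0 < C) (Z0 : ℕ)
    (hP : ∀ Z L M : ℕ, Z0 ≤ Z → Real.log Z ≤ L → L ≤ Z → M * L ≤ Z →
      ∑ i ∈ range M, (((Nat.primeCounting ((i + 1) * L) - Nat.primeCounting (i * L) : ℕ) : ℝ)) ^ 2 ≤
        C * ((Z : ℝ) * L / Real.log Z ^ 2)) :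
    ∃ c : ℝ, 0 < c ∧ ∃ F0 : ℕ, ∀ F T : ℕ, F0 ≤ F → Real.log F ≤ T → 2 * T ≤ F →
      ∃ (I : Finset ℕ) (p : ℕ → ℕ), (∀ i ∈ I, i * T < p i ∧ p i ≤ (i + 1) * T) ∧
        (∀ i ∈ I, (p i).Prime) ∧ (∀ i ∈ I, p i ≤ F) ∧ c * ((F : ℝ) / T) ≤ (I.card : ℝ) := by
  classical
  obtain ⟨c, hc, N0, hlow⟩ := pi_low
  refine ⟨c ^ 2 / (4 * C), by positivity, max (max Z0 (2 * N0)) 6, fun F T hF hT hTF => ?_⟩
  have hZ0 : Z0 ≤ F := le_trans (le_trans (le_max_left _ _) (le_max_left _ _)) hF
  have hN0 : 2 * N0 ≤ F := le_trans (le_trans (le_max_right _ _) (le_max_left _ _)) hF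
  have hF6 : 6 ≤ F := le_trans (le_max_right _ _) hF
  have hF6' : (6 : ℝ) ≤ F := by exact_mod_cast hF6
  have hlF : 0 < Real.log F := Real.log_pos (by linarith)
  have hT0 : (0 : ℝ) < T := lt_of_lt_of_le hlF hT
  have hTpos : 0 < T := by exact_mod_cast hT0
  set M : ℕ := F / T with hM
  have hMT : M * T ≤ F := Nat.div_mul_le_self F T
  have hMT2 : F ≤ 2 * (M * T) := by
    have e := Nat.div_add_mod F T
    have m := Nat.mod_lt F hTpos
    have e2 : M * T = T * (F / T) := by rw [hM]; ring
    omega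
  set n : ℕ → ℕ := fun i => Nat.primeCounting ((i + 1) * T) - Nat.primeCounting (i * T) with hn
  have hmono : ∀ i : ℕ, Nat.primeCounting (i * T) ≤ Nat.primeCounting ((i + 1) * T) := fun i =>
    Nat.monotone_primeCounting (Nat.mul_le_mul_right _ (Nat.le_succ i))
  have htel : ∀ m : ℕ, ∑ i ∈ range m, n i = Nat.primeCounting (m * T) := by
    intro m
    induction m with
    | zero => simp
    | succ m ih =>
      rw [sum_range_succ, ih, hn]
      have := hmono m
      simp only
      omega
  set I : Finset ℕ := (range M).filter (fun i => n i ≠ 0) with hI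
  have hsumI : ∑ i ∈ I, n i = Nat.primeCounting (M * T) := by
    rw [← htel M, hI, sum_filter_ne_zero]
  -- a prime in each block of `I`
  have hex : ∀ i ∈ I, ∃ p : ℕ, p.Prime ∧ i * T < p ∧ p ≤ (i + 1) * T := by
    intro i hi
    have h1 : n i ≠ 0 := (mem_filter.1 hi).2
    by_contra hno
    push Not at hno
    apply h1
    have h2 : Nat.primeCounting ((i + 1) * T) = Nat.primeCounting (i * T) := by
      have hsub : ∀ k : ℕ, k ≤ T → Nat.primeCounting (i * T + k) = Nat.primeCounting (i * T) := by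
        intro k
        induction k with
        | zero => intro _; rfl
        | succ k ih =>
          intro hk
          have h3 := ih (by omega)
          have h4 : ¬ (i * T + k + 1).Prime := by
            intro hp
            have h5 := hno (i * T + k + 1) hp (by omega)
            have h6 : (i + 1) * T = i * T + T := by ring
            omega
          rw [← add_assoc, ← h3]
          unfold Nat.primeCounting Nat.primeCounting'
          rw [Nat.count_succ, if_neg h4]
          rfl
      have h6 : (i + 1) * T = i * T + T := by ring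
      rw [h6]
      exact hsub T le_rfl
    show Nat.primeCounting ((i + 1) * T) - Nat.primeCounting (i * T) = 0
    rw [h2, Nat.sub_self]
  choose! p hp1 hp2 hp3 using hex
  refine ⟨I, p, fun i hi => ⟨hp2 i hi, hp3 i hi⟩, hp1, fun i hi => ?_, ?_⟩
  · have h1 : i < M := mem_range.1 (mem_filter.1 hi).1
    exact (hp3 i hi).trans ((Nat.mul_le_mul_right _ h1).trans hMT)
  · -- Cauchy-Schwarz
    have hcs : ((Nat.primeCounting (M * T) : ℕ) : ℝ) ^ 2 ≤
        (I.card : ℝ) * (C * ((F : ℝ) * T / Real.log F ^ 2)) := by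
      have h1 : ((Nat.primeCounting (M * T) : ℕ) : ℝ) = ∑ i ∈ I, (n i : ℝ) := by
        rw [← hsumI]; push_cast; rfl
      rw [h1]
      calc (∑ i ∈ I, (n i : ℝ)) ^ 2 ≤ (I.card : ℝ) * ∑ i ∈ I, (n i : ℝ) ^ 2 :=
            sq_sum_le_card_mul_sum_sq
        _ ≤ (I.card : ℝ) * ∑ i ∈ range M, (n i : ℝ) ^ 2 := by
            apply mul_le_mul_of_nonneg_left _ (Nat.cast_nonneg _)
            exact sum_le_sum_of_subset_of_nonneg (filter_subset _ _) fun i _ _ => sq_nonneg _
        _ ≤ (I.card : ℝ) * (C * ((F : ℝ) * T / Real.log F ^ 2)) := by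
            apply mul_le_mul_of_nonneg_left _ (Nat.cast_nonneg _)
            exact hP F T M hZ0 hT (by omega) hMT
    have hlowM : c * ((F : ℝ) / 2 / Real.log F) ≤ ((Nat.primeCounting (M * T) : ℕ) : ℝ) := by
      refine le_trans ?_ (hlow (M * T) (by omega))
      have h1 : (F : ℝ) / 2 ≤ ((M * T : ℕ) : ℝ) := by
        have : (F : ℝ) ≤ ((2 * (M * T) : ℕ) : ℝ) := by exact_mod_cast hMT2
        push_cast at this ⊢
        linarith
      have h2 : ((M * T : ℕ) : ℝ) ≤ F := by exact_mod_cast hMT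
      have h3 : 0 < Real.log ((M * T : ℕ) : ℝ) := Real.log_pos (by linarith)
      have h4 : Real.log ((M * T : ℕ) : ℝ) ≤ Real.log F := Real.log_le_log (by linarith) h2
      apply mul_le_mul_of_nonneg_left _ hc.le
      exact div_le_div₀ (by linarith) h1 h3 h4
    have h5 : (c * ((F : ℝ) / 2 / Real.log F)) ^ 2 ≤
        (I.card : ℝ) * (C * ((F : ℝ) * T / Real.log F ^ 2)) :=
      le_trans (pow_le_pow_left₀ (by positivity) hlowM 2) hcs
    have hFp : (0 : ℝ) < F := by linarith
    have h6 : (c * ((F : ℝ) / 2 / Real.log F)) ^ 2 =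
        (c ^ 2 / (4 * C) * ((F : ℝ) / T)) * (C * ((F : ℝ) * T / Real.log F ^ 2)) := by
      field_simp
      ring
    rw [h6] at h5
    exact le_of_mul_le_mul_right h5 (by positivity)

end Pool.Agent.E139P
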