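import Mathlib
import Pool.Agent.E139C.Key
import Pool.Agent.E139P.Cheb

/-!
Small values, windows and numerics for `f k = π (2 k) - π k`.
-/

set_option autoImplicit false

open Finset Filter

namespace Pool.Agent.E139P

open Pool.Agent.E139C

lemma f_zero : Nat.primeCounting (2 * 0) - Nat.primeCounting 0 = 0 := rfl

lemma f_succ (k : ℕ) : Nat.primeCounting (2 * (k + 1)) - Nat.primeCounting (k + 1) ≤
    Nat.primeCounting (2 * k) - Nat.primeCounting k + 1 := by
  have h1 : Nat.primeCounting k ≤ Nat.primeCounting (k + 1) :=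
    Nat.monotone_primeCounting (Nat.le_succ k)
  have h2 : Nat.primeCounting k ≤ Nat.primeCounting (2 * k) :=
    Nat.monotone_primeCounting (by omega)
  have h3 : Nat.primeCounting (2 * (k + 1)) ≤ Nat.primeCounting (2 * k) + 1 := by
    rcases Nat.eq_zero_or_pos k with rfl | hk
    · have e1 : Nat.primeCounting 2 = 1 := by decide
      simp [e1]
    · have e : 2 * (k + 1) = 2 * k + 1 + 1 := by ring
      have h4 : ¬ (2 * k + 1 + 1).Prime := by
        intro hp
        have h5 : 2 ∣ 2 * k + 1 + 1 := ⟨k + 1, by ring⟩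
        have := (Nat.prime_dvd_prime_iff_eq Nat.prime_two hp).1 h5
        omega
      have h5 : Nat.primeCounting (2 * k + 1 + 1) = Nat.primeCounting (2 * k + 1) := by
        unfold Nat.primeCounting Nat.primeCounting'
        rw [Nat.count_succ, if_neg h4]
        rfl
      rw [e, h5]
      exact pi_succ_le _
  omega

lemma pi_add_card (a b : ℕ) (h : a ≤ b) :
    Nat.primeCounting a + ((Ioc a b).filter Nat.Prime).card = Nat.primeCounting b := by
  have e : ∀ n : ℕ, Nat.primeCounting n = ((Ioc 0 n).filter Nat.Prime).card := by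
    intro n
    rw [Nat.primeCounting, Nat.primeCounting', Nat.count_eq_card_filter_range]
    congr 1
    ext p
    simp only [mem_filter, mem_range, mem_Ioc]
    constructor
    · rintro ⟨h1, h2⟩
      exact ⟨⟨h2.pos, by omega⟩, h2⟩
    · rintro ⟨h1, h2⟩
      exact ⟨by omega, h2⟩
  rw [e, e, ← card_union_of_disjoint]
  · congr 1
    ext p
    simp only [mem_union, mem_filter, mem_Ioc]
    constructor
    · rintro (⟨h1, h2⟩ | ⟨h1, h2⟩)
      · exact ⟨⟨h1.1, by omega⟩, h2⟩
      · exact ⟨⟨by omega, h1.2⟩, h2⟩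
    · rintro ⟨h1, h2⟩
      rcases le_or_gt p a with h3 | h3
      · exact Or.inl ⟨⟨h1.1, h3⟩, h2⟩
      · exact Or.inr ⟨⟨h3, h1.2⟩, h2⟩
  · rw [disjoint_left]
    intro p h1 h2
    simp only [mem_filter, mem_Ioc] at h1 h2
    omega

/-- variation of `f` on a window -/
theorem win (H j a b : ℕ) (ha : j * H < a) (ha' : a ≤ (j + 1) * H) (hb : j * H < b)
    (hb' : b ≤ (j + 1) * H) :
    Nat.primeCounting (2 * b) - Nat.primeCounting b ≤
      Nat.primeCounting (2 * a) - Nat.primeCounting a +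
        (((Ioc (j * H) ((j + 1) * H)).filter Nat.Prime).card +
          ((Ioc (j * (2 * H)) ((j + 1) * (2 * H))).filter Nat.Prime).card) := by
  have e1 : (j + 1) * (2 * H) = 2 * ((j + 1) * H) := by ring
  have e2 : j * (2 * H) = 2 * (j * H) := by ring
  rw [e1, e2]
  have p1 := pi_add_card (j * H) ((j + 1) * H) (by omega)
  have p2 := pi_add_card (2 * (j * H)) (2 * ((j + 1) * H)) (by omega)
  have m : ∀ u v : ℕ, u ≤ v → Nat.primeCounting u ≤ Nat.primeCounting v := fun u v h =>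
    Nat.monotone_primeCounting h
  have a1 := m (2 * b) (2 * ((j + 1) * H)) (by omega)
  have a2 := m (2 * (j * H)) (2 * a) (by omega)
  have a3 := m a ((j + 1) * H) (by omega)
  have a4 := m (j * H) b (by omega)
  have a5 := m a (2 * a) (by omega)
  have a6 := m b (2 * b) (by omega)
  rcases le_total a b with h | h
  · have a9 := m a b h
    omega
  · have a9 := m b a h
    have a10 := m (2 * b) (2 * a) (by omega)
    omega

/-- small numbers `m` with a square `f m` -/
theorem sq_small : ∃ c : ℝ, 0 < c ∧ ∃ H0 : ℕ, ∀ H : ℕ, H0 ≤ H →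
    c * Real.sqrt ((H : ℝ) / Real.log H) ≤
      (((Icc 1 H).filter (fun m => IsSquare (Nat.primeCounting (2 * m) - Nat.primeCounting m))).card
        : ℝ) := by
  classical
  obtain ⟨c, hc, X0, hmax⟩ := max_f
  refine ⟨Real.sqrt c / 2, by positivity, max X0 2, fun H hH => ?_⟩
  obtain ⟨x0, hx0, hf⟩ := hmax H (le_trans (le_max_left _ _) hH)
  have hH2 : 2 ≤ H := le_trans (le_max_right _ _) hH
  have hH2' : (2 : ℝ) ≤ H := by exact_mod_cast hH2
  have hl : 0 < Real.log H := Real.log_pos (by linarith)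
  set F : ℕ := Nat.primeCounting (2 * x0) - Nat.primeCounting x0 with hF
  have hFp : (0 : ℝ) < (F : ℝ) := lt_of_lt_of_le (by positivity) hf
  have hFpos : 0 < F := by exact_mod_cast hFp
  have hex : ∀ j ∈ Icc 1 (Nat.sqrt F), ∃ m : ℕ, m ≤ x0 ∧
      Nat.primeCounting (2 * m) - Nat.primeCounting m = j ^ 2 := by
    intro j hj
    rw [mem_Icc] at hj
    have h1 : j ^ 2 ≤ F := by
      have := Nat.sqrt_le' F
      calc j ^ 2 ≤ Nat.sqrt F ^ 2 := Nat.pow_le_pow_left hj.2 2
        _ ≤ F := this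
    exact ivt (fun k => Nat.primeCounting (2 * k) - Nat.primeCounting k) f_zero f_succ x0 (j ^ 2) h1
  choose! m hm1 hm2 using hex
  have hcard : Nat.sqrt F ≤
      ((Icc 1 H).filter (fun m => IsSquare (Nat.primeCounting (2 * m) - Nat.primeCounting m))).card := by
    have h1 : (Icc 1 (Nat.sqrt F)).card = Nat.sqrt F := by simp
    rw [← h1]
    refine card_le_card_of_injOn m ?_ ?_
    · intro j hj
      have hj' : j ∈ Icc 1 (Nat.sqrt F) := hj
      rw [mem_coe, mem_filter, mem_Icc]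
      have h2 := hm1 j hj'
      have h3 := hm2 j hj'
      refine ⟨⟨?_, by omega⟩, ?_⟩
      · by_contra h0
        have h4 : m j = 0 := by omega
        rw [h4, f_zero] at h3
        have h5 : 1 ≤ j := (mem_Icc.1 hj').1
        have h6 : 0 < j ^ 2 := by positivity
        omega
      · rw [h3]
        exact ⟨j, by ring⟩
    · intro i hi j hj hij
      have hi' : i ∈ Icc 1 (Nat.sqrt F) := hi
      have hj' : j ∈ Icc 1 (Nat.sqrt F) := hj
      have h1 := hm2 i hi'
      have h2 := hm2 j hj'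
      rw [hij, h2] at h1
      exact (Nat.pow_left_injective (n := 2) (by norm_num) h1).symm
  have h1 : Real.sqrt (F : ℝ) ≤ 2 * (Nat.sqrt F : ℝ) := by
    have h2 := Real.real_sqrt_le_nat_sqrt_succ (a := F)
    have h3 : 1 ≤ Nat.sqrt F := Nat.sqrt_pos.2 hFpos
    have h4 : (1 : ℝ) ≤ (Nat.sqrt F : ℝ) := by exact_mod_cast h3
    linarith
  have h2 : Real.sqrt c * Real.sqrt ((H : ℝ) / Real.log H) ≤ Real.sqrt F := by
    rw [← Real.sqrt_mul hc.le]
    exact Real.sqrt_le_sqrt hf
  have h3 : ((Nat.sqrt F : ℕ) : ℝ) ≤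
      (((Icc 1 H).filter (fun m => IsSquare (Nat.primeCounting (2 * m) - Nat.primeCounting m))).card
        : ℝ) := by exact_mod_cast hcard
  calc Real.sqrt c / 2 * Real.sqrt ((H : ℝ) / Real.log H) =
      (Real.sqrt c * Real.sqrt ((H : ℝ) / Real.log H)) / 2 := by ring
    _ ≤ _ := by linarith

/-- the length of the windows: `log H ≤ 3 log log X` -/
lemma logH : ∀ᶠ X : ℕ in atTop, (Real.log X) ^ 2 ≤ (⌈(Real.log X) ^ 2⌉₊ : ℝ) ∧
    1 < Real.log (Real.log X) ∧ 0 < Real.log (⌈(Real.log X) ^ 2⌉₊ : ℝ) ∧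
      Real.log (⌈(Real.log X) ^ 2⌉₊ : ℝ) ≤ 3 * Real.log (Real.log X) := by
  have hlogT : Tendsto (fun X : ℕ => Real.log (X : ℝ)) atTop atTop :=
    Real.tendsto_log_atTop.comp (tendsto_natCast_atTop_atTop (R := ℝ))
  have hllT : Tendsto (fun X : ℕ => Real.log (Real.log (X : ℝ))) atTop atTop :=
    Real.tendsto_log_atTop.comp hlogT
  filter_upwards [hlogT.eventually_ge_atTop 2, hllT.eventually_gt_atTop 1] with X h1 h2
  have hge : (Real.log X) ^ 2 ≤ (⌈(Real.log X) ^ 2⌉₊ : ℝ) := Nat.le_ceil _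
  have hle : (⌈(Real.log X) ^ 2⌉₊ : ℝ) ≤ 2 * (Real.log X) ^ 2 := by
    have := Nat.ceil_lt_add_one (show (0 : ℝ) ≤ (Real.log X) ^ 2 by positivity)
    nlinarith
  refine ⟨hge, h2, Real.log_pos (by nlinarith), ?_⟩
  have h3 : Real.log (⌈(Real.log X) ^ 2⌉₊ : ℝ) ≤ Real.log (2 * (Real.log X) ^ 2) :=
    Real.log_le_log (by nlinarith) hle
  rw [Real.log_mul (by norm_num) (by positivity), Real.log_pow] at h3
  have h4 := Real.log_two_lt_d9
  push_cast at h3
  linarith

theorem num1 : ∀ᶠ X : ℕ in atTop,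
    (Real.log X) ^ 2 / (9 * (Real.log (Real.log X)) ^ 2) ≤
      (⌈(Real.log X) ^ 2⌉₊ : ℝ) / (Real.log (⌈(Real.log X) ^ 2⌉₊ : ℝ)) ^ 2 := by
  filter_upwards [logH] with X h
  obtain ⟨h1, h2, h3, h4⟩ := h
  have h5 : (Real.log (⌈(Real.log X) ^ 2⌉₊ : ℝ)) ^ 2 ≤ 9 * (Real.log (Real.log X)) ^ 2 := by
    have := pow_le_pow_left₀ h3.le h4 2
    calc _ ≤ (3 * Real.log (Real.log X)) ^ 2 := this
      _ = _ := by ring
  exact div_le_div₀ (Nat.cast_nonneg _) h1 (by positivity) h5

theorem num2 : ∀ᶠ X : ℕ in atTop,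
    Real.log X / (2 * Real.sqrt (Real.log (Real.log X))) ≤
      Real.sqrt ((⌈(Real.log X) ^ 2⌉₊ : ℝ) / Real.log (⌈(Real.log X) ^ 2⌉₊ : ℝ)) := by
  filter_upwards [logH] with X h
  obtain ⟨h1, h2, h3, h4⟩ := h
  apply Real.le_sqrt_of_sq_le
  have h5 : (Real.log X / (2 * Real.sqrt (Real.log (Real.log X)))) ^ 2 =
      (Real.log X) ^ 2 / (4 * Real.log (Real.log X)) := by
    rw [div_pow, mul_pow, Real.sq_sqrt (by linarith)]
    norm_num
  rw [h5]
  exact div_le_div₀ (Nat.cast_nonneg _) h1 h3 (by linarith)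

end Pool.Agent.E139P
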